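import Pool.Agent.Helper44.GH.Stmts

set_option autoImplicit false

/-!
MP_d210aa_gt, module ABP2: pointwise inequalities for `BB`.
-/

open Finset MeasureTheory Filter Topology Matrix
open scoped ENNReal ContDiff

namespace Pool.Agent.Helper44.GH

open Pool.Agent.Helper44.GF Pool.Agent.Helper44.GN

section ABP2

variable {n m : ℕ}

theorem abp2_tr (V Z : Matrix (Fin n) (Fin m) ℝ) (e : Fin n → ℝ) (N : Matrix (Fin m) (Fin m) ℝ) :
    Matrix.trace (N * TT V Z e) = ∑ i, e i * (Z i ⬝ᵥ N *ᵥ V i) := by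
  have h1 : N * TT V Z e = N * Vᵀ * Matrix.diagonal e * Z := by
    unfold TT
    simp only [Matrix.mul_assoc]
  have h2 : Z * (N * Vᵀ * Matrix.diagonal e) = (Z * (N * Vᵀ)) * Matrix.diagonal e := by
    simp only [Matrix.mul_assoc]
  rw [h1, Matrix.trace_mul_comm, h2]
  unfold Matrix.trace
  refine Finset.sum_congr rfl fun i _ => ?_
  rw [Matrix.diag_apply, Matrix.mul_diagonal, mul_comm]
  congr 1

theorem abp2_sub (V Z : Matrix (Fin n) (Fin m) ℝ) (y ρ : Fin n → ℝ) :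
    TT V Z (fun i => y i - ρ i) = TT V Z y - TT V Z ρ := by
  unfold TT
  have h : Matrix.diagonal (fun i => y i - ρ i) = Matrix.diagonal y - Matrix.diagonal ρ := by
    rw [Matrix.diagonal_sub]
  rw [h, Matrix.mul_sub, Matrix.sub_mul]

theorem abp2_quad (V : Matrix (Fin n) (Fin m) ℝ) (y : Fin n → ℝ) (x : Fin m → ℝ) :
    x ⬝ᵥ TT V V y *ᵥ x = ∑ i, y i * (V *ᵥ x) i ^ 2 := by
  have h1 : TT V V y *ᵥ x = Vᵀ *ᵥ (Matrix.diagonal y *ᵥ (V *ᵥ x)) := by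
    unfold TT
    simp only [Matrix.mulVec_mulVec, Matrix.mul_assoc]
  rw [h1, Matrix.dotProduct_mulVec, Matrix.vecMul_transpose]
  unfold dotProduct
  refine Finset.sum_congr rfl fun i _ => ?_
  rw [Matrix.mulVec_diagonal]
  ring

theorem abp2_unit (V : Matrix (Fin n) (Fin m) ℝ) (y : Fin n → ℝ) (hy : y ∈ Og n)
    (hV : Function.Injective V.mulVec) : IsUnit (TT V V y).det := by
  rw [← Matrix.isUnit_iff_isUnit_det, ← Matrix.mulVec_injective_iff_isUnit]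
  intro a b hab
  have h0 : TT V V y *ᵥ (a - b) = 0 := by
    rw [Matrix.mulVec_sub, sub_eq_zero]
    exact hab
  have h1 := abp2_quad V y (a - b)
  rw [h0, dotProduct_zero] at h1
  have h2 : ∀ i ∈ (Finset.univ : Finset (Fin n)), y i * (V *ᵥ (a - b)) i ^ 2 = 0 := by
    rw [← Finset.sum_eq_zero_iff_of_nonneg]
    · exact h1.symm
    · intro i _
      exact mul_nonneg (le_of_lt (hy i)) (sq_nonneg _)
  have h3 : V *ᵥ (a - b) = 0 := by
    funext i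
    have h4 := h2 i (Finset.mem_univ i)
    rcases mul_eq_zero.mp h4 with h5 | h5
    · exact absurd h5 (ne_of_gt (hy i))
    · exact pow_eq_zero_iff (by norm_num) |>.mp h5
  rw [Matrix.mulVec_sub, sub_eq_zero] at h3
  exact hV h3

theorem abp2_symH (V : Matrix (Fin n) (Fin m) ℝ) (y : Fin n → ℝ) : (TT V V y)ᵀ = TT V V y := by
  unfold TT
  rw [Matrix.transpose_mul, Matrix.transpose_mul, Matrix.transpose_transpose,
    Matrix.diagonal_transpose, Matrix.mul_assoc]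

theorem abp2_symK (V : Matrix (Fin n) (Fin m) ℝ) (y : Fin n → ℝ) :
    ((TT V V y)⁻¹)ᵀ = (TT V V y)⁻¹ := by
  rw [Matrix.transpose_nonsing_inv, abp2_symH]

theorem abp2_psd (V : Matrix (Fin n) (Fin m) ℝ) (y : Fin n → ℝ) (hy : y ∈ Og n)
    (hV : Function.Injective V.mulVec) (w : Fin m → ℝ) :
    0 ≤ w ⬝ᵥ (TT V V y)⁻¹ *ᵥ w := by
  have hu := abp2_unit V y hy hV
  have h1 : (TT V V y)⁻¹ = (TT V V y)⁻¹ * TT V V y * (TT V V y)⁻¹ := by
    rw [Matrix.nonsing_inv_mul _ hu, Matrix.one_mul]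
  have h2 : w ⬝ᵥ (TT V V y)⁻¹ *ᵥ w
      = ((TT V V y)⁻¹ *ᵥ w) ⬝ᵥ TT V V y *ᵥ ((TT V V y)⁻¹ *ᵥ w) := by
    conv_lhs => rw [h1, ← Matrix.mulVec_mulVec, ← Matrix.mulVec_mulVec, Matrix.dotProduct_mulVec]
    congr 1
    rw [← Matrix.mulVec_transpose, abp2_symK]
  rw [h2, abp2_quad]
  exact Finset.sum_nonneg fun i _ => mul_nonneg (le_of_lt (hy i)) (sq_nonneg _)

theorem abp2_comm (K : Matrix (Fin m) (Fin m) ℝ) (hK : Kᵀ = K) (a b : Fin m → ℝ) :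
    a ⬝ᵥ K *ᵥ b = b ⬝ᵥ K *ᵥ a := by
  rw [Matrix.dotProduct_mulVec, ← Matrix.mulVec_transpose, hK, dotProduct_comm]

theorem abp2_am (K : Matrix (Fin m) (Fin m) ℝ) (hK : Kᵀ = K)
    (hP : ∀ w : Fin m → ℝ, 0 ≤ w ⬝ᵥ K *ᵥ w) (e t : ℝ) (ht : 0 < t) (z p : Fin m → ℝ) :
    e * (z ⬝ᵥ K *ᵥ p) ≤ e ^ 2 / t * (z ⬝ᵥ K *ᵥ z) / 2 + t * (p ⬝ᵥ K *ᵥ p) / 2 := by
  have h := hP (e • z - t • p)
  have h1 : (e • z - t • p) ⬝ᵥ K *ᵥ (e • z - t • p)
      = e ^ 2 * (z ⬝ᵥ K *ᵥ z) - 2 * e * t * (z ⬝ᵥ K *ᵥ p) + t ^ 2 * (p ⬝ᵥ K *ᵥ p) := by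
    rw [Matrix.mulVec_sub, Matrix.mulVec_smul, Matrix.mulVec_smul, sub_dotProduct,
      dotProduct_sub, dotProduct_sub, smul_dotProduct, smul_dotProduct, dotProduct_smul,
      dotProduct_smul, dotProduct_smul, smul_dotProduct, dotProduct_smul,
      smul_dotProduct, abp2_comm K hK p z]
    simp only [smul_eq_mul]
    ring
  rw [h1] at h
  have h2 : 0 ≤ (e ^ 2 * (z ⬝ᵥ K *ᵥ z) - 2 * e * t * (z ⬝ᵥ K *ᵥ p) + t ^ 2 * (p ⬝ᵥ K *ᵥ p))
      / (2 * t) := div_nonneg h (by linarith)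
  have h3 : (e ^ 2 * (z ⬝ᵥ K *ᵥ z) - 2 * e * t * (z ⬝ᵥ K *ᵥ p) + t ^ 2 * (p ⬝ᵥ K *ᵥ p))
      / (2 * t) = e ^ 2 / t * (z ⬝ᵥ K *ᵥ z) / 2 + t * (p ⬝ᵥ K *ᵥ p) / 2
        - e * (z ⬝ᵥ K *ᵥ p) := by
    field_simp
    ring
  rw [h3] at h2
  linarith

/-- The main step. -/
theorem abp2_key (V Z : Matrix (Fin n) (Fin m) ℝ) (y e : Fin n → ℝ) (hy : y ∈ Og n)
    (hV : Function.Injective V.mulVec) (M : Matrix (Fin m) (Fin m) ℝ) :
    Matrix.trace ((TT V V y)⁻¹ * M * (TT V V y)⁻¹ * TT V Z e)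
      ≤ (∑ i, e i ^ 2 / y i * (Z i ⬝ᵥ (TT V V y)⁻¹ *ᵥ Z i)) / 2
        + Matrix.trace ((TT V V y)⁻¹ * Mᵀ * (TT V V y)⁻¹ * M) / 2 := by
  have hu := abp2_unit V y hy hV
  obtain ⟨K, hK⟩ : ∃ K, K = (TT V V y)⁻¹ := ⟨_, rfl⟩
  have hsym : Kᵀ = K := by rw [hK, abp2_symK]
  have hpsd : ∀ w : Fin m → ℝ, 0 ≤ w ⬝ᵥ K *ᵥ w := by
    intro w
    rw [hK]
    exact abp2_psd V y hy hV w
  have hinv : K * TT V V y = 1 := by rw [hK, Matrix.nonsing_inv_mul _ hu]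
  rw [← hK]
  have h1 : Matrix.trace (K * M * K * TT V Z e)
      = ∑ i, e i * (Z i ⬝ᵥ K *ᵥ ((M * K) *ᵥ V i)) := by
    rw [abp2_tr]
    refine Finset.sum_congr rfl fun i _ => ?_
    rw [Matrix.mulVec_mulVec, Matrix.mul_assoc]
  have h2 : Matrix.trace (K * Mᵀ * K * M)
      = ∑ i, y i * (((M * K) *ᵥ V i) ⬝ᵥ K *ᵥ ((M * K) *ᵥ V i)) := by
    have h3 : K * Mᵀ * K * M = (K * Mᵀ * K * (M * K)) * TT V V y := by
      rw [Matrix.mul_assoc (K * Mᵀ * K) (M * K), Matrix.mul_assoc M K, hinv, Matrix.mul_one]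
    rw [h3, abp2_tr]
    refine Finset.sum_congr rfl fun i _ => ?_
    congr 1
    have h4 : (K * Mᵀ * K * (M * K)) *ᵥ V i = (M * K)ᵀ *ᵥ (K *ᵥ ((M * K) *ᵥ V i)) := by
      simp only [Matrix.mulVec_mulVec, Matrix.transpose_mul, hsym, Matrix.mul_assoc]
    rw [h4, Matrix.dotProduct_mulVec, Matrix.vecMul_transpose]
  rw [h1, h2, ← add_div, ← Finset.sum_add_distrib, Finset.sum_div]
  refine Finset.sum_le_sum fun i _ => ?_
  have h5 := abp2_am K hsym hpsd (e i) (y i) (hy i) (Z i) ((M * K) *ᵥ V i)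
  linarith

end ABP2

theorem st_ABP2 : ST_ABP2 := by
  intro n m V Z y ρ hy hρ hV h0
  have hu := abp2_unit V y hy hV
  have hG : TT V Z y = TT V Z (fun i => y i - ρ i) := by
    rw [abp2_sub, h0, sub_zero]
  constructor
  · have hB : BB V Z y = (TT V V y)⁻¹ * TT V Z (fun i => y i - ρ i) := by
      unfold BB
      rw [hG]
    obtain ⟨G, hGG⟩ : ∃ G, G = TT V Z (fun i => y i - ρ i) := ⟨_, rfl⟩
    have k1 := abp2_key V Z y (fun i => y i - ρ i) hy hV G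
    have k2 := abp2_key V Z y (fun i => y i - ρ i) hy hV Gᵀ
    rw [Matrix.transpose_transpose] at k2
    rw [← hGG] at k1 k2 hB
    have e1 : BB V Z y * BB V Z y = (TT V V y)⁻¹ * G * (TT V V y)⁻¹ * G := by
      rw [hB]
      simp only [Matrix.mul_assoc]
    have e2 : Matrix.trace ((TT V V y)⁻¹ * G * (TT V V y)⁻¹ * Gᵀ)
        = Matrix.trace ((TT V V y)⁻¹ * Gᵀ * (TT V V y)⁻¹ * G) := by
      have e3 : (TT V V y)⁻¹ * G * (TT V V y)⁻¹ * Gᵀ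
          = ((TT V V y)⁻¹ * G) * ((TT V V y)⁻¹ * Gᵀ) := by
        simp only [Matrix.mul_assoc]
      rw [e3, Matrix.trace_mul_comm]
      simp only [Matrix.mul_assoc]
    rw [e1]
    rw [e2] at k2
    linarith
  · intro U
    obtain ⟨K, hK⟩ : ∃ K, K = (TT V V y)⁻¹ := ⟨_, rfl⟩
    have hsym : Kᵀ = K := by rw [hK, abp2_symK]
    have hinv : K * TT V V y = 1 := by rw [hK, Matrix.nonsing_inv_mul _ hu]
    have hB : Uᵀ * BB V Z y = (Uᵀ * K) * TT V Z (fun i => y i - ρ i) := by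
      unfold BB
      rw [hG, hK, Matrix.mul_assoc]
    rw [← hK, hB, abp2_tr]
    have h2 : Matrix.trace (Uᵀ * K * U)
        = ∑ i, y i * (((Uᵀ * K) *ᵥ V i) ⬝ᵥ ((Uᵀ * K) *ᵥ V i)) := by
      have h3 : Matrix.trace (Uᵀ * K * U) = Matrix.trace (((K * U) * (Uᵀ * K)) * TT V V y) := by
        have h4 : ((K * U) * (Uᵀ * K)) * TT V V y = K * U * Uᵀ := by
          rw [Matrix.mul_assoc (K * U), Matrix.mul_assoc Uᵀ K, hinv, Matrix.mul_one]
        rw [h4, Matrix.mul_assoc Uᵀ K U, Matrix.trace_mul_comm Uᵀ (K * U)]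
      rw [h3, abp2_tr]
      refine Finset.sum_congr rfl fun i _ => ?_
      congr 1
      have h4 : ((K * U) * (Uᵀ * K)) *ᵥ V i = (Uᵀ * K)ᵀ *ᵥ ((Uᵀ * K) *ᵥ V i) := by
        rw [Matrix.mulVec_mulVec, Matrix.transpose_mul, hsym, Matrix.transpose_transpose]
      rw [h4, Matrix.dotProduct_mulVec, Matrix.vecMul_transpose]
    rw [h2, ← Finset.sum_add_distrib, Finset.mul_sum]
    refine Finset.sum_le_sum fun i _ => ?_
    have hyi := hy i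
    have h6 := abp2_am (1 : Matrix (Fin m) (Fin m) ℝ) Matrix.transpose_one
      (fun w => by rw [Matrix.one_mulVec]; exact Finset.sum_nonneg fun j _ => mul_self_nonneg _)
      (-(y i - ρ i)) (y i) hyi (Z i) ((Uᵀ * K) *ᵥ V i)
    rw [Matrix.one_mulVec, Matrix.one_mulVec] at h6
    have h7 : (-(y i - ρ i)) ^ 2 = (y i - ρ i) ^ 2 := by ring
    rw [h7] at h6
    linarith

end Pool.Agent.Helper44.GH
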